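import Pool.Agent.Helper14_HSL.HSL
import Pool.Agent.ANR.Defs

/-!
# Absorption removed from a network: the Hilbert-Schmidt bound and the counting bound

`G = (H - iκ)⁻¹`, `G' = (H - iκ')⁻¹`, `0 ≤ κ' ≤ κ` (`κ'` may vanish where `G'` exists):
`∑ κ'_x κ'_y |G_xy - G'_xy|² ≤ ∑ (κ_x - κ'_x) (κ_y - κ'_y) |G_xy|² ≤ ∑ (κ_b - κ'_b) Im G_bb`.
-/

set_option autoImplicit false

open scoped BigOperators Matrix ComplexConjugate

noncomputable section

namespace Pool.Agent.HSL14

open Pool.Agent.ANR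

variable {X : Type} [Fintype X] [DecidableEq X]

/-- `H - i κ` -/
def mat (H : Matrix X X ℝ) (κ : X → ℝ) : Matrix X X ℂ :=
  H.map (fun t : ℝ => (t : ℂ)) - Matrix.diagonal fun x => Complex.I * (κ x : ℂ)

theorem gr_eq (H : Matrix X X ℝ) (κ : X → ℝ) : Gr H κ = (mat H κ)⁻¹ := rfl

omit [Fintype X] in
theorem mat_transpose {H : Matrix X X ℝ} (hH : ∀ x y, H x y = H y x) (κ : X → ℝ) :
    (mat H κ)ᵀ = mat H κ := by
  ext x y
  rw [Matrix.transpose_apply, mat, Matrix.sub_apply, Matrix.sub_apply, Matrix.map_apply,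
    Matrix.map_apply, hH y x]
  congr 1
  by_cases h : x = y
  · subst h; rfl
  · rw [Matrix.diagonal_apply_ne _ (Ne.symm h), Matrix.diagonal_apply_ne _ h]

theorem gr_sym {H : Matrix X X ℝ} (hH : ∀ x y, H x y = H y x) (κ : X → ℝ) (x y : X) :
    Gr H κ x y = Gr H κ y x := by
  have : (Gr H κ)ᵀ = Gr H κ := by
    rw [gr_eq, Matrix.transpose_nonsing_inv, mat_transpose hH]
  exact congrFun (congrFun this y) x

/-- `H - i κ` is invertible for `κ > 0` -/
theorem mat_unit {H : Matrix X X ℝ} {κ : X → ℝ} (h : Net H κ) : IsUnit (mat H κ).det := by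
  rw [isUnit_iff_ne_zero]
  intro h0
  obtain ⟨v, hv, hv0⟩ := Matrix.exists_mulVec_eq_zero_iff.mpr h0
  apply hv
  -- `im ⟨v, M v⟩ = - ∑ κ |v|²`
  have h1 : (∑ x, conj (v x) * (mat H κ *ᵥ v) x) = 0 := by
    rw [hv0]; simp
  have h2 : ∀ x, (mat H κ *ᵥ v) x = (∑ y, (H x y : ℂ) * v y) - Complex.I * (κ x : ℂ) * v x := by
    intro x
    rw [mat, Matrix.sub_mulVec, Pi.sub_apply, Matrix.mulVec_diagonal]
    congr 1
  have h3 : (∑ x, conj (v x) * (mat H κ *ᵥ v) x) =
      (∑ x, ∑ y, (H x y : ℂ) * (conj (v x) * v y)) -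
        Complex.I * ((∑ x, κ x * ‖v x‖ ^ 2 : ℝ) : ℂ) := by
    push_cast
    rw [Finset.mul_sum, ← Finset.sum_sub_distrib]
    apply Finset.sum_congr rfl
    intro x _
    rw [h2 x, mul_sub, Finset.mul_sum]
    congr 1
    · apply Finset.sum_congr rfl
      intro y _
      ring
    · have : conj (v x) * v x = ((‖v x‖ : ℂ)) ^ 2 := by
        rw [mul_comm, Complex.mul_conj, Complex.normSq_eq_norm_sq]
        push_cast
        rfl
      linear_combination (Complex.I * (κ x : ℂ)) * this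
  have h4 : conj (∑ x, ∑ y, (H x y : ℂ) * (conj (v x) * v y)) =
      ∑ x, ∑ y, (H x y : ℂ) * (conj (v x) * v y) := by
    rw [map_sum]
    simp only [map_sum, map_mul, Complex.conj_ofReal, Complex.conj_conj]
    rw [Finset.sum_comm]
    apply Finset.sum_congr rfl
    intro x _
    apply Finset.sum_congr rfl
    intro y _
    rw [h.sym y x]
    ring
  have h5 : (∑ x, ∑ y, (H x y : ℂ) * (conj (v x) * v y)).im = 0 := Complex.conj_eq_iff_im.mp h4
  have h6 := congrArg Complex.im (h3.symm.trans h1)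
  rw [Complex.sub_im, h5, Complex.mul_im, Complex.I_re, Complex.I_im, Complex.ofReal_re,
    Complex.ofReal_im] at h6
  have h7 : (∑ x, κ x * ‖v x‖ ^ 2) = 0 := by
    simp only [Complex.zero_im] at h6
    linarith
  have h8 : ∀ x ∈ Finset.univ, 0 ≤ κ x * ‖v x‖ ^ 2 := fun x _ =>
    mul_nonneg (h.pos x).le (by positivity)
  have h9 := (Finset.sum_eq_zero_iff_of_nonneg h8).mp h7
  funext x
  have h10 := h9 x (Finset.mem_univ x)
  have h11 : ‖v x‖ ^ 2 = 0 := by
    rcases mul_eq_zero.mp h10 with h' | h'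
    · exact absurd h' (h.pos x).ne'
    · exact h'
  have h12 : ‖v x‖ = 0 := by simpa using h11
  simpa using h12

/-- Ward identity -/
theorem ward {H : Matrix X X ℝ} {κ : X → ℝ} (hH : ∀ x y, H x y = H y x)
    (hU : IsUnit (mat H κ).det) (x z : X) :
    (∑ y, (κ y : ℂ) * (Gr H κ x y * conj (Gr H κ z y))) = ((Gr H κ x z).im : ℂ) := by
  set M := mat H κ with hM
  set G := Gr H κ with hG
  have hGM : G * M = 1 := by rw [hG, gr_eq]; exact Matrix.nonsing_inv_mul _ hU
  have hMG : M * G = 1 := by rw [hG, gr_eq]; exact Matrix.mul_nonsing_inv _ hU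
  have hMG' : Mᴴ * Gᴴ = 1 := by
    rw [← Matrix.conjTranspose_mul, hGM, Matrix.conjTranspose_one]
  have hMM : Mᴴ - M = Matrix.diagonal fun x => 2 * Complex.I * (κ x : ℂ) := by
    ext a b
    rw [Matrix.sub_apply, Matrix.conjTranspose_apply, hM, mat, Matrix.sub_apply, Matrix.sub_apply,
      Matrix.map_apply, Matrix.map_apply, hH b a]
    by_cases h : a = b
    · subst h
      rw [Matrix.diagonal_apply_eq, Matrix.diagonal_apply_eq]
      simp
      ring
    · rw [Matrix.diagonal_apply_ne _ h, Matrix.diagonal_apply_ne _ h,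
        Matrix.diagonal_apply_ne _ (Ne.symm h)]
      simp
  have hGG : G - Gᴴ = G * (Mᴴ - M) * Gᴴ := by
    rw [Matrix.mul_sub, Matrix.sub_mul, hGM, Matrix.one_mul, Matrix.mul_assoc, hMG',
      Matrix.mul_one]
  have h1 := congrFun (congrFun hGG x) z
  rw [hMM, Matrix.sub_apply, Matrix.conjTranspose_apply, Matrix.mul_apply] at h1
  have h2 : ∀ y, (G * Matrix.diagonal fun x => 2 * Complex.I * (κ x : ℂ)) x y * Gᴴ y z =
      2 * Complex.I * ((κ y : ℂ) * (G x y * conj (G z y))) := by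
    intro y
    rw [Matrix.mul_diagonal, Matrix.conjTranspose_apply, Complex.star_def]
    ring
  simp only [h2] at h1
  have hs : G z x = G x z := gr_sym hH κ z x
  rw [← Finset.mul_sum, Complex.star_def, hs, Complex.sub_conj] at h1
  have hI : (2 * Complex.I : ℂ) ≠ 0 := by simp
  apply mul_left_cancel₀ hI
  rw [← h1]
  push_cast
  ring

/-- Ward identity on the diagonal -/
theorem ward_diag {H : Matrix X X ℝ} {κ : X → ℝ} (hH : ∀ x y, H x y = H y x)
    (hU : IsUnit (mat H κ).det) (x : X) :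
    (∑ y, κ y * ‖Gr H κ x y‖ ^ 2) = (Gr H κ x x).im := by
  have h := ward hH hU x x
  have h2 : (∑ y, (κ y : ℂ) * (Gr H κ x y * conj (Gr H κ x y))) =
      ((∑ y, κ y * ‖Gr H κ x y‖ ^ 2 : ℝ) : ℂ) := by
    push_cast
    apply Finset.sum_congr rfl
    intro y _
    rw [Complex.mul_conj, Complex.normSq_eq_norm_sq]
    push_cast
    rfl
  rw [h2] at h
  exact_mod_cast h

/-- THE BOUND, for any two absorptions `0 ≤ κ' ≤ κ` such that both Green functions exist. -/
theorem hsl_gen {H : Matrix X X ℝ} {κ κ' : X → ℝ} (hH : ∀ x y, H x y = H y x)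
    (h0 : ∀ x, 0 ≤ κ' x) (hle : ∀ x, κ' x ≤ κ x) (hU : IsUnit (mat H κ).det)
    (hU' : IsUnit (mat H κ').det) :
    (∑ x, ∑ y, κ' x * κ' y * ‖Gr H κ x y - Gr H κ' x y‖ ^ 2) ≤
      ∑ b, ∑ b', (κ b - κ' b) * (κ b' - κ' b') * ‖Gr H κ b b'‖ ^ 2 := by
  set G := Gr H κ with hG
  set G' := Gr H κ' with hG'
  set M := mat H κ with hM
  set M' := mat H κ' with hM'
  set s : X → ℝ := fun x => Real.sqrt (κ x - κ' x) with hs
  set t : X → ℝ := fun x => Real.sqrt (κ' x) with ht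
  have hss : ∀ x, (s x : ℂ) * (s x : ℂ) = (κ x : ℂ) - (κ' x : ℂ) := by
    intro x
    rw [← Complex.ofReal_mul, Real.mul_self_sqrt (by have := hle x; linarith)]
    push_cast
    ring
  have hss' : ∀ x, s x * s x = κ x - κ' x := fun x =>
    Real.mul_self_sqrt (by have := hle x; linarith)
  have htt' : ∀ x, t x * t x = κ' x := fun x => Real.mul_self_sqrt (h0 x)
  have htt : ∀ x, (t x : ℂ) * (t x : ℂ) = (κ' x : ℂ) := by
    intro x
    rw [← Complex.ofReal_mul, htt' x]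
  set S : Matrix X X ℂ := Matrix.diagonal fun x => (s x : ℂ) with hS
  set T : Matrix X X ℂ := Matrix.diagonal fun x => (t x : ℂ) with hT
  have hGM : G * M = 1 := by rw [hG, gr_eq]; exact Matrix.nonsing_inv_mul _ hU
  have hMG : M * G = 1 := by rw [hG, gr_eq]; exact Matrix.mul_nonsing_inv _ hU
  have hGM' : G' * M' = 1 := by rw [hG', gr_eq]; exact Matrix.nonsing_inv_mul _ hU'
  have hMM : M' = M + Complex.I • (S * S) := by
    rw [hM', hM, mat, mat, hS, Matrix.diagonal_mul_diagonal]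
    ext a b
    rw [Matrix.sub_apply, Matrix.add_apply, Matrix.sub_apply, Matrix.smul_apply]
    by_cases h : a = b
    · subst h
      rw [Matrix.diagonal_apply_eq, Matrix.diagonal_apply_eq, Matrix.diagonal_apply_eq, hss,
        smul_eq_mul]
      ring
    · rw [Matrix.diagonal_apply_ne _ h, Matrix.diagonal_apply_ne _ h,
        Matrix.diagonal_apply_ne _ h]
      simp
  set F : Matrix X X ℂ := S * G * T with hF
  set R : Matrix X X ℂ := S * G * S with hR
  have hGT : Gᵀ = G := by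
    ext a b
    exact gr_sym hH κ b a
  have hRT : Rᵀ = R := by
    rw [hR, Matrix.transpose_mul, Matrix.transpose_mul, hGT, hS, Matrix.diagonal_transpose,
      Matrix.mul_assoc]
  have hFT : Fᵀ = T * G * S := by
    rw [hF, Matrix.transpose_mul, Matrix.transpose_mul, hGT, hS, hT, Matrix.diagonal_transpose,
      Matrix.diagonal_transpose, Matrix.mul_assoc]
  have hFa : ∀ a b, F a b = (s a : ℂ) * G a b * (t b : ℂ) := by
    intro a b
    rw [hF, hT, Matrix.mul_diagonal, hS, Matrix.diagonal_mul]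
  have hRa : ∀ a b, R a b = (s a : ℂ) * G a b * (s b : ℂ) := by
    intro a b
    rw [hR, hS, Matrix.mul_diagonal, Matrix.diagonal_mul]
  -- `K` is invertible
  have hK : IsUnit (1 + (((1 : ℝ) : ℂ) * Complex.I : ℂ) • R).det := by
    have e1 : (1 + (((1 : ℝ) : ℂ) * Complex.I : ℂ) • R) = 1 + S * (Complex.I • (G * S)) := by
      rw [hR, Matrix.mul_smul, Matrix.mul_assoc]
      norm_num
    rw [e1, Matrix.det_one_add_mul_comm]
    have e2 : 1 + (Complex.I • (G * S)) * S = G * M' := by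
      rw [hMM, Matrix.mul_add, hGM, Matrix.smul_mul, Matrix.mul_smul, Matrix.mul_assoc]
    rw [e2, Matrix.det_mul]
    have e3 : IsUnit G.det := by
      have := congrArg Matrix.det hGM
      rw [Matrix.det_mul, Matrix.det_one] at this
      exact IsUnit.of_mul_eq_one _ this
    exact e3.mul hU'
  -- Ward
  have hW : ∀ b b', ((1 : ℝ) : ℂ) * ((∑ a, F b a * conj (F b' a)) + ∑ c, R b c * conj (R b' c)) =
      ((R b b').im : ℂ) := by
    intro b b'
    rw [Complex.ofReal_one, one_mul, ← Finset.sum_add_distrib]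
    have e1 : ∀ a, F b a * conj (F b' a) + R b a * conj (R b' a) =
        (s b : ℂ) * (s b' : ℂ) * ((κ a : ℂ) * (G b a * conj (G b' a))) := by
      intro a
      rw [hFa, hFa, hRa, hRa]
      simp only [map_mul, Complex.conj_ofReal]
      linear_combination ((s b : ℂ) * (s b' : ℂ) * (G b a * conj (G b' a))) * (hss a) +
        ((s b : ℂ) * (s b' : ℂ) * (G b a * conj (G b' a))) * (htt a)
    simp only [e1]
    rw [← Finset.mul_sum]
    have e2 := ward hH hU b b'
    rw [e2, hRa]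
    have e3 : ((s b : ℂ) * G b b' * (s b' : ℂ)).im = s b * s b' * (G b b').im := by
      rw [Complex.mul_im, Complex.ofReal_im, Complex.ofReal_re, mul_zero, zero_add,
        Complex.im_ofReal_mul]
      ring
    rw [e3]
    push_cast
    ring
  have key := hsl (F := F) (R := R) (η := 1) one_pos hRT hW hK
  set K : Matrix X X ℂ := 1 + (((1 : ℝ) : ℂ) * Complex.I : ℂ) • R with hKd
  have hKi : K * K⁻¹ = 1 := Matrix.mul_nonsing_inv K hK
  -- the difference
  have hZ : G' = G - Complex.I • (G * S * K⁻¹ * S * G) := by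
    have e1 : M' * (G - Complex.I • (G * S * K⁻¹ * S * G)) = 1 := by
      have e2 : Complex.I • K⁻¹ = Complex.I • (1 : Matrix X X ℂ) + R * K⁻¹ := by
        have e3 : K⁻¹ + Complex.I • (R * K⁻¹) = 1 := by
          rw [← hKi]
          nth_rewrite 3 [hKd]
          rw [Matrix.add_mul, Matrix.one_mul, Matrix.smul_mul]
          norm_num
        rw [← e3, smul_add, smul_smul, Complex.I_mul_I]
        simp
      have e4 : Complex.I • (S * K⁻¹ * S * G) = Complex.I • (S * S * G) + S * R * K⁻¹ * S * G := by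
        have e5 : Complex.I • (S * K⁻¹ * S * G) = S * (Complex.I • K⁻¹) * S * G := by
          rw [Matrix.mul_smul, Matrix.smul_mul, Matrix.smul_mul]
        rw [e5, e2, Matrix.mul_add, Matrix.add_mul, Matrix.add_mul, Matrix.mul_smul,
          Matrix.smul_mul, Matrix.smul_mul, Matrix.mul_one, Matrix.mul_assoc S R]
      rw [hMM, Matrix.add_mul, Matrix.mul_sub, Matrix.mul_sub, hMG, Matrix.mul_smul,
        Matrix.smul_mul, Matrix.smul_mul, Matrix.mul_smul, smul_smul, Complex.I_mul_I]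
      have e6 : M * (G * S * K⁻¹ * S * G) = S * K⁻¹ * S * G := by
        rw [← Matrix.mul_assoc, ← Matrix.mul_assoc, ← Matrix.mul_assoc, ← Matrix.mul_assoc, hMG,
          Matrix.one_mul]
      have e7 : S * S * (G * S * K⁻¹ * S * G) = S * R * K⁻¹ * S * G := by
        rw [hR]
        simp only [Matrix.mul_assoc]
      rw [e6, e7, e4]
      simp
    calc G' = G' * (M' * (G - Complex.I • (G * S * K⁻¹ * S * G))) := by rw [e1, Matrix.mul_one]
      _ = _ := by rw [← Matrix.mul_assoc, hGM', Matrix.one_mul]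
  have hD : ∀ x y, (t x : ℂ) * (G x y - G' x y) * (t y : ℂ) =
      Complex.I * (((1 : ℝ) : ℂ) • (Fᵀ * K⁻¹ * F)) x y := by
    intro x y
    have e1 : Fᵀ * K⁻¹ * F = T * (G * S * K⁻¹ * S * G) * T := by
      rw [hFT, hF]
      simp only [Matrix.mul_assoc]
    rw [Matrix.smul_apply, Complex.ofReal_one, one_smul, e1, hT, Matrix.mul_diagonal,
      Matrix.diagonal_mul, hZ, Matrix.sub_apply, Matrix.smul_apply, smul_eq_mul]
    ring
  have hL : ∀ x y, κ' x * κ' y * ‖G x y - G' x y‖ ^ 2 =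
      ‖(((1 : ℝ) : ℂ) • (Fᵀ * K⁻¹ * F)) x y‖ ^ 2 := by
    intro x y
    have e1 := congrArg (fun z : ℂ => ‖z‖ ^ 2) (hD x y)
    simp only [norm_mul, mul_pow, Complex.norm_real, Real.norm_eq_abs, sq_abs, Complex.norm_I,
      one_mul] at e1
    rw [← e1, ← htt' x, ← htt' y]
    ring
  have hRt : ∀ x y, ‖R x y‖ ^ 2 = (κ x - κ' x) * (κ y - κ' y) * ‖G x y‖ ^ 2 := by
    intro x y
    rw [hRa, norm_mul, norm_mul, Complex.norm_real, Complex.norm_real, Real.norm_eq_abs,
      Real.norm_eq_abs, mul_pow, mul_pow, sq_abs, sq_abs, ← hss' x, ← hss' y]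
    ring
  simp only [hL, ← hRt]
  exact key

/-- The right side is at most the absorption which is removed. -/
theorem hsl_flux {H : Matrix X X ℝ} {κ κ' : X → ℝ} (hH : ∀ x y, H x y = H y x)
    (h0 : ∀ x, 0 ≤ κ' x) (hle : ∀ x, κ' x ≤ κ x) (hU : IsUnit (mat H κ).det) :
    (∑ b, ∑ b', (κ b - κ' b) * (κ b' - κ' b') * ‖Gr H κ b b'‖ ^ 2) ≤
      ∑ b, (κ b - κ' b) * (Gr H κ b b).im := by
  apply Finset.sum_le_sum
  intro b _
  rw [← ward_diag hH hU b, Finset.mul_sum]
  apply Finset.sum_le_sum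
  intro c _
  have h1 : 0 ≤ κ b - κ' b := by have := hle b; linarith
  have h2 : κ c - κ' c ≤ κ c := by have := h0 c; linarith
  rw [mul_assoc]
  exact mul_le_mul_of_nonneg_left (mul_le_mul_of_nonneg_right h2 (by positivity)) h1

/-- THE COUNTING BOUND: few sites (measured by `κ'`) are good for `G'` and bad for `G`. -/
theorem hsc {H : Matrix X X ℝ} {κ κ' : X → ℝ} (hH : ∀ x y, H x y = H y x)
    (h0 : ∀ x, 0 ≤ κ' x) (hle : ∀ x, κ' x ≤ κ x) (hU : IsUnit (mat H κ).det)
    (hU' : IsUnit (mat H κ').det) {c : ℝ} (hc : 0 < c) (B : Finset X)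
    (hB : ∀ x ∈ B, 2 * c ≤ (Gr H κ' x x).im ∧ (Gr H κ x x).im < c / 2) :
    (∑ x ∈ B, κ' x) ≤ (2 / c) * ∑ b, (κ b - κ' b) * (Gr H κ b b).im := by
  set q : X → ℝ := fun x => ∑ y, κ' y * ‖Gr H κ x y - Gr H κ' x y‖ ^ 2 with hq
  have hq0 : ∀ x, 0 ≤ q x := fun x =>
    Finset.sum_nonneg fun y _ => mul_nonneg (h0 y) (by positivity)
  have hqB : ∀ x ∈ B, c / 2 ≤ q x := by
    intro x hx
    obtain ⟨h1, h2⟩ := hB x hx
    rw [← ward_diag hH hU' x] at h1
    rw [← ward_diag hH hU x] at h2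
    by_contra h3
    push Not at h3
    have h4 : (∑ y, κ' y * ‖Gr H κ' x y‖ ^ 2) ≤
        2 * (∑ y, κ y * ‖Gr H κ x y‖ ^ 2) + 2 * q x := by
      rw [hq, Finset.mul_sum, Finset.mul_sum, ← Finset.sum_add_distrib]
      apply Finset.sum_le_sum
      intro y _
      have h5 : ‖Gr H κ' x y‖ ≤ ‖Gr H κ x y‖ + ‖Gr H κ x y - Gr H κ' x y‖ := by
        have := norm_sub_le (Gr H κ x y) (Gr H κ x y - Gr H κ' x y)
        rwa [sub_sub_cancel] at this
      have h6 : ‖Gr H κ' x y‖ ^ 2 ≤ 2 * ‖Gr H κ x y‖ ^ 2 + 2 * ‖Gr H κ x y - Gr H κ' x y‖ ^ 2 := by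
        have h7 := norm_nonneg (Gr H κ' x y)
        nlinarith [sq_nonneg (‖Gr H κ x y‖ - ‖Gr H κ x y - Gr H κ' x y‖)]
      have h8 := mul_le_mul_of_nonneg_left h6 (h0 y)
      have h9 : κ' y * ‖Gr H κ x y‖ ^ 2 ≤ κ y * ‖Gr H κ x y‖ ^ 2 :=
        mul_le_mul_of_nonneg_right (hle y) (by positivity)
      nlinarith
    linarith
  have h1 : (∑ x ∈ B, κ' x * (c / 2)) ≤ ∑ x, κ' x * q x := by
    calc (∑ x ∈ B, κ' x * (c / 2)) ≤ ∑ x ∈ B, κ' x * q x :=
          Finset.sum_le_sum fun x hx => mul_le_mul_of_nonneg_left (hqB x hx) (h0 x)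
      _ ≤ ∑ x, κ' x * q x :=
          Finset.sum_le_sum_of_subset_of_nonneg (Finset.subset_univ B)
            fun x _ _ => mul_nonneg (h0 x) (hq0 x)
  have h2 : (∑ x, κ' x * q x) = ∑ x, ∑ y, κ' x * κ' y * ‖Gr H κ x y - Gr H κ' x y‖ ^ 2 := by
    apply Finset.sum_congr rfl
    intro x _
    rw [hq, Finset.mul_sum]
    apply Finset.sum_congr rfl
    intro y _
    ring
  have h3 := (hsl_gen hH h0 hle hU hU').trans (hsl_flux hH h0 hle hU)
  rw [← h2] at h3
  rw [← Finset.sum_mul] at h1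
  have h4 := h1.trans h3
  rw [div_mul_eq_mul_div, le_div_iff₀ hc]
  linarith

/-- HSL for networks. -/
theorem hsl_net {H : Matrix X X ℝ} {κ κ' : X → ℝ} (h : Net H κ') (hle : ∀ x, κ' x ≤ κ x) :
    (∑ x, ∑ y, κ' x * κ' y * ‖Gr H κ x y - Gr H κ' x y‖ ^ 2) ≤
      ∑ b, (κ b - κ' b) * (Gr H κ b b).im := by
  have hn : Net H κ := ⟨h.sym, fun x => (h.pos x).trans_le (hle x)⟩
  exact (hsl_gen h.sym (fun x => (h.pos x).le) hle (mat_unit hn) (mat_unit h)).trans
    (hsl_flux h.sym (fun x => (h.pos x).le) hle (mat_unit hn))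

/-- HSC for networks. -/
theorem hsc_net {H : Matrix X X ℝ} {κ κ' : X → ℝ} (h : Net H κ') (hle : ∀ x, κ' x ≤ κ x) {c : ℝ}
    (hc : 0 < c) (B : Finset X)
    (hB : ∀ x ∈ B, 2 * c ≤ (Gr H κ' x x).im ∧ (Gr H κ x x).im < c / 2) :
    (∑ x ∈ B, κ' x) ≤ (2 / c) * ∑ b, (κ b - κ' b) * (Gr H κ b b).im := by
  have hn : Net H κ := ⟨h.sym, fun x => (h.pos x).trans_le (hle x)⟩
  exact hsc h.sym (fun x => (h.pos x).le) hle (mat_unit hn) (mat_unit h) hc B hB

/-- The case of the torus: `κ = η` everywhere, `κ' = η` off the dead set `D`, `κ' ≤ η` on `D`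
(`κ' = 0` on `D` is allowed if the second Green function exists). -/
theorem hsc_card {H : Matrix X X ℝ} {η : ℝ} {κ' : X → ℝ} (hH : ∀ x y, H x y = H y x) (hη : 0 < η)
    (D : Finset X) (hA : ∀ x, x ∉ D → κ' x = η) (h0 : ∀ x, 0 ≤ κ' x) (hle : ∀ x, κ' x ≤ η)
    (hU' : IsUnit (mat H κ').det) {c : ℝ} (hc : 0 < c) (B : Finset X) (hBD : ∀ x ∈ B, x ∉ D)
    (hB : ∀ x ∈ B, 2 * c ≤ (Gr H κ' x x).im ∧ (Gr H (fun _ => η) x x).im < c / 2) :
    (B.card : ℝ) ≤ (2 / c) * ∑ b ∈ D, (Gr H (fun _ => η) b b).im := by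
  have hU : IsUnit (mat H fun _ => η).det := mat_unit ⟨hH, fun _ => hη⟩
  have h1 := hsc (κ := fun _ => η) hH h0 hle hU hU' hc B hB
  have h2 : (∑ x ∈ B, κ' x) = (B.card : ℝ) * η := by
    rw [Finset.sum_congr rfl fun x hx => hA x (hBD x hx), Finset.sum_const, nsmul_eq_mul]
  have h3 : ∀ b, 0 ≤ (Gr H (fun _ => η) b b).im := by
    intro b
    rw [← ward_diag hH hU b]
    exact Finset.sum_nonneg fun y _ => mul_nonneg hη.le (by positivity)
  have h4 : (∑ b, (η - κ' b) * (Gr H (fun _ => η) b b).im) ≤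
      η * ∑ b ∈ D, (Gr H (fun _ => η) b b).im := by
    rw [← Finset.sum_subset (Finset.subset_univ D), Finset.mul_sum]
    · apply Finset.sum_le_sum
      intro b _
      exact mul_le_mul_of_nonneg_right (by have := h0 b; linarith) (h3 b)
    · intro b _ hb
      rw [hA b hb, sub_self, zero_mul]
  rw [h2] at h1
  have h5 : (B.card : ℝ) * η ≤ ((2 / c) * ∑ b ∈ D, (Gr H (fun _ => η) b b).im) * η := by
    calc (B.card : ℝ) * η ≤ _ := h1
      _ ≤ (2 / c) * (η * ∑ b ∈ D, (Gr H (fun _ => η) b b).im) :=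
          mul_le_mul_of_nonneg_left h4 (by positivity)
      _ = _ := by ring
  exact le_of_mul_le_mul_right h5 hη

end Pool.Agent.HSL14
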