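import Mathlib

/-!
# Absorption at the dead sites does not matter in the Hilbert-Schmidt norm

`G = (H - iη)⁻¹`, `G^N = (H - iη 1_A)⁻¹`, `H` real symmetric on `A ∪ B`: then
`∑_{x,y ∈ A} |G_xy - G^N_xy|² ≤ ∑_{b,b' ∈ B} |G_bb'|²` (helper67, note 3384 (3)).
-/

set_option autoImplicit false

open scoped BigOperators Matrix ComplexConjugate ComplexOrder MatrixOrder

noncomputable section

namespace Pool.Agent.HSL14

variable {α β : Type} [Fintype α] [Fintype β] [DecidableEq α] [DecidableEq β]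

/-- Hilbert-Schmidt norm as a trace -/
theorem hs_trace {m n : Type} [Fintype m] [Fintype n] (Y : Matrix m n ℂ) :
    ((∑ x, ∑ y, ‖Y x y‖ ^ 2 : ℝ) : ℂ) = (Y * Yᴴ).trace := by
  rw [Matrix.trace]
  push_cast
  apply Finset.sum_congr rfl
  intro x _
  rw [Matrix.diag_apply, Matrix.mul_apply]
  apply Finset.sum_congr rfl
  intro y _
  rw [Matrix.conjTranspose_apply, Complex.star_def, Complex.mul_conj, Complex.normSq_eq_norm_sq]
  push_cast
  rfl

omit [DecidableEq β] in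
/-- If `2 Nᴴ N = N + Nᴴ` then every column of `N` has norm at most one. -/
theorem col_le {N : Matrix β β ℂ} (h : (2 : ℂ) • (Nᴴ * N) = N + Nᴴ) :
    (∑ i, ∑ j, ‖N i j‖ ^ 2) ≤ (Fintype.card β : ℝ) := by
  rw [Finset.sum_comm]
  have key : ∀ j : β, (∑ i, ‖N i j‖ ^ 2) ≤ 1 := by
    intro j
    have h1 := congrFun (congrFun h j) j
    rw [Matrix.smul_apply, Matrix.mul_apply, Matrix.add_apply, Matrix.conjTranspose_apply] at h1
    have h2 := congrArg Complex.re h1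
    have h3 : (∑ i, Nᴴ j i * N i j) = ((∑ i, ‖N i j‖ ^ 2 : ℝ) : ℂ) := by
      push_cast
      apply Finset.sum_congr rfl
      intro i _
      rw [Matrix.conjTranspose_apply, Complex.star_def, mul_comm, Complex.mul_conj,
        Complex.normSq_eq_norm_sq]
      push_cast
      rfl
    rw [h3, smul_eq_mul] at h2
    have h4 : (∑ i, ‖N i j‖ ^ 2) = (N j j).re := by
      have h5 : ((2 : ℂ) * ((∑ i, ‖N i j‖ ^ 2 : ℝ) : ℂ)).re = 2 * ∑ i, ‖N i j‖ ^ 2 := by
        rw [show (2 : ℂ) = ((2 : ℝ) : ℂ) by norm_num, ← Complex.ofReal_mul, Complex.ofReal_re]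
      rw [h5, Complex.add_re, Complex.star_def, Complex.conj_re] at h2
      linarith
    have h6 : ‖N j j‖ ^ 2 ≤ ∑ i, ‖N i j‖ ^ 2 :=
      Finset.single_le_sum (f := fun i => ‖N i j‖ ^ 2) (fun i _ => by positivity)
        (Finset.mem_univ j)
    have h7 : (N j j).re ≤ ‖N j j‖ := Complex.re_le_norm _
    have h8 := norm_nonneg (N j j)
    set q := ∑ i, ‖N i j‖ ^ 2
    by_contra hq
    push Not at hq
    nlinarith
  calc (∑ j, ∑ i, ‖N i j‖ ^ 2) ≤ ∑ _j : β, (1 : ℝ) := Finset.sum_le_sum fun j _ => key j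
    _ = _ := by simp

omit [DecidableEq α] in
/-- The block form: `R = G_BB`, `F = G_BA`, Ward identity on `B`. -/
theorem hsl {F : Matrix β α ℂ} {R : Matrix β β ℂ} {η : ℝ} (hη : 0 < η) (hR : Rᵀ = R)
    (hW : ∀ b b', (η : ℂ) * ((∑ a, F b a * conj (F b' a)) + ∑ c, R b c * conj (R b' c)) =
      ((R b b').im : ℂ))
    (hK : IsUnit (1 + (η * Complex.I : ℂ) • R).det) :
    (∑ x, ∑ y, ‖((η : ℂ) • (Fᵀ * (1 + (η * Complex.I : ℂ) • R)⁻¹ * F)) x y‖ ^ 2) ≤
      ∑ b, ∑ b', ‖R b b'‖ ^ 2 := by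
  set K : Matrix β β ℂ := 1 + (η * Complex.I : ℂ) • R with hKd
  have hKT : Kᵀ = K := by
    rw [hKd, Matrix.transpose_add, Matrix.transpose_one, Matrix.transpose_smul, hR]
  set D : Matrix β β ℂ := (1 / 2 : ℂ) • (K + Kᴴ) with hDd
  set W : Matrix β α ℂ := (η : ℂ) • F with hWd
  -- entries of `K ᴴ`
  have hRH : ∀ b b', Rᴴ b b' = conj (R b b') := by
    intro b b'
    rw [Matrix.conjTranspose_apply, Complex.star_def]
    have : R b' b = R b b' := congrFun (congrFun hR b) b'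
    rw [this]
  have hKH : Kᴴ = 1 - (η * Complex.I : ℂ) • Rᴴ := by
    rw [hKd, Matrix.conjTranspose_add, Matrix.conjTranspose_one, Matrix.conjTranspose_smul]
    have : star (η * Complex.I : ℂ) = -(η * Complex.I : ℂ) := by
      simp
    rw [this, neg_smul, ← sub_eq_add_neg]
  -- Ward
  have hWW : W * Wᴴ = D - K * Kᴴ := by
    have e1 : W * Wᴴ = ((η : ℂ) ^ 2) • (F * Fᴴ) := by
      rw [hWd, Matrix.conjTranspose_smul, Matrix.smul_mul, Matrix.mul_smul, smul_smul]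
      congr 1
      simp [pow_two]
    have e2 : K * Kᴴ = 1 + (η * Complex.I : ℂ) • R - (η * Complex.I : ℂ) • Rᴴ +
        ((η : ℂ) ^ 2) • (R * Rᴴ) := by
      rw [hKH, hKd]
      rw [add_mul, mul_sub, mul_sub, one_mul, one_mul, mul_one, Matrix.smul_mul, Matrix.mul_smul,
        smul_smul]
      have : (η * Complex.I : ℂ) * (η * Complex.I : ℂ) = -(η : ℂ) ^ 2 := by
        ring_nf
        rw [Complex.I_sq]
        ring
      rw [this, neg_smul]
      abel
    have e3 : D = 1 + (1 / 2 : ℂ) • ((η * Complex.I : ℂ) • R - (η * Complex.I : ℂ) • Rᴴ) := by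
      rw [hDd, hKH, hKd]
      ext b b'
      simp only [Matrix.smul_apply, Matrix.add_apply, Matrix.sub_apply, smul_eq_mul]
      ring
    rw [e1, e2, e3]
    ext b b'
    simp only [Matrix.smul_apply, Matrix.add_apply, Matrix.sub_apply, smul_eq_mul,
      Matrix.mul_apply, hRH]
    have h1 := hW b b'
    have h2 : (∑ a, F b a * Fᴴ a b') = ∑ a, F b a * conj (F b' a) := by
      apply Finset.sum_congr rfl
      intro a _
      rw [Matrix.conjTranspose_apply, Complex.star_def]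
    have h3 : (∑ c, R b c * conj (R c b')) = ∑ c, R b c * conj (R b' c) := by
      apply Finset.sum_congr rfl
      intro c _
      rw [show R c b' = R b' c from congrFun (congrFun hR b') c]
    rw [h2, h3]
    have h4 : ((R b b').im : ℂ) = (R b b' - conj (R b b')) / (2 * Complex.I) := by
      rw [Complex.sub_conj]
      push_cast
      field_simp
    rw [h4] at h1
    have hI : (2 * Complex.I : ℂ) ≠ 0 := by simp
    have h5 : (R b b' - conj (R b b')) / (2 * Complex.I) =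
        -(Complex.I / 2) * (R b b' - conj (R b b')) := by
      rw [div_eq_iff hI]
      ring_nf
      rw [Complex.I_sq]
      ring
    rw [h5] at h1
    linear_combination (η : ℂ) * h1
  have hDT : Dᵀ = D := by
    rw [hDd, Matrix.transpose_smul, Matrix.transpose_add, hKT]
    congr 2
    rw [hKH, Matrix.transpose_sub, Matrix.transpose_one, Matrix.transpose_smul]
    congr 2
    ext b b'
    rw [Matrix.transpose_apply, hRH, hRH, show R b' b = R b b' from congrFun (congrFun hR b) b']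
  have hKHT : (Kᴴ)ᵀ = Kᴴ := by
    have : (Kᴴ)ᵀ = (Kᵀ)ᴴ := by
      ext b b'
      simp [Matrix.conjTranspose_apply, Matrix.transpose_apply]
    rw [this, hKT]
  have hWW' : (Wᵀ)ᴴ * Wᵀ = D - Kᴴ * K := by
    have h1 := congrArg Matrix.transpose hWW
    rw [Matrix.transpose_mul, Matrix.transpose_sub, Matrix.transpose_mul, hDT, hKT, hKHT] at h1
    rw [← h1]
    congr 1
  have hKi : K * K⁻¹ = 1 := Matrix.mul_nonsing_inv K hK
  have hiK : K⁻¹ * K = 1 := Matrix.nonsing_inv_mul K hK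
  have hKHi : (K⁻¹)ᴴ * Kᴴ = 1 := by
    rw [← Matrix.conjTranspose_mul, hKi, Matrix.conjTranspose_one]
  have hKHi' : Kᴴ * (K⁻¹)ᴴ = 1 := by
    rw [← Matrix.conjTranspose_mul, hiK, Matrix.conjTranspose_one]
  -- `D` is positive
  have hDpos : D.PosSemidef := by
    have : D = K * Kᴴ + W * Wᴴ := by rw [hWW]; abel
    rw [this]
    exact (Matrix.posSemidef_self_mul_conjTranspose K).add
      (Matrix.posSemidef_self_mul_conjTranspose W)
  obtain ⟨C, hC0⟩ := CStarAlgebra.nonneg_iff_eq_star_mul_self.mp hDpos.nonneg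
  have hC : D = Cᴴ * C := by rw [hC0, Matrix.star_eq_conjTranspose]
  set N : Matrix β β ℂ := C * K⁻¹ * Cᴴ with hN
  have hNN : (2 : ℂ) • (Nᴴ * N) = N + Nᴴ := by
    have h1 : Nᴴ = C * (K⁻¹)ᴴ * Cᴴ := by
      rw [hN, Matrix.conjTranspose_mul, Matrix.conjTranspose_mul, Matrix.conjTranspose_conjTranspose,
        Matrix.mul_assoc]
    have h2 : Nᴴ * N = C * ((K⁻¹)ᴴ * D * K⁻¹) * Cᴴ := by
      rw [h1, hN, hC]
      simp only [Matrix.mul_assoc]
    have h3 : (2 : ℂ) • ((K⁻¹)ᴴ * D * K⁻¹) = (K⁻¹)ᴴ + K⁻¹ := by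
      rw [hDd, Matrix.mul_smul, Matrix.smul_mul, smul_smul]
      norm_num
      rw [Matrix.mul_add, Matrix.add_mul, hKHi, Matrix.mul_assoc, hKi, Matrix.mul_one,
        Matrix.one_mul]
    rw [h2]
    have h4 : ∀ Z : Matrix β β ℂ, (2 : ℂ) • (C * Z * Cᴴ) = C * ((2 : ℂ) • Z) * Cᴴ := by
      intro Z
      rw [Matrix.mul_smul, Matrix.smul_mul]
    rw [h4, h3, Matrix.mul_add, Matrix.add_mul, ← hN, ← h1]
    abel
  have hcol := col_le hNN
  -- the trace formula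
  set Y : Matrix α α ℂ := Wᵀ * K⁻¹ * W with hY
  have htr : (Y * Yᴴ).trace = (N * Nᴴ).trace - 2 * D.trace + (K * Kᴴ).trace := by
    have hYH : Yᴴ = Wᴴ * (K⁻¹)ᴴ * (Wᵀ)ᴴ := by
      rw [hY, Matrix.conjTranspose_mul, Matrix.conjTranspose_mul, Matrix.mul_assoc]
    have h1 : (Y * Yᴴ).trace = ((K⁻¹ * (W * Wᴴ) * (K⁻¹)ᴴ) * ((Wᵀ)ᴴ * Wᵀ)).trace := by
      rw [hYH, hY]
      have : Wᵀ * K⁻¹ * W * (Wᴴ * (K⁻¹)ᴴ * (Wᵀ)ᴴ) =
          Wᵀ * (K⁻¹ * (W * Wᴴ) * (K⁻¹)ᴴ * (Wᵀ)ᴴ) := by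
        simp only [Matrix.mul_assoc]
      rw [this, Matrix.trace_mul_comm]
      simp only [Matrix.mul_assoc]
    have h2 : K⁻¹ * (W * Wᴴ) * (K⁻¹)ᴴ = K⁻¹ * D * (K⁻¹)ᴴ - 1 := by
      rw [hWW, Matrix.mul_sub, Matrix.sub_mul]
      congr 1
      rw [← Matrix.mul_assoc K⁻¹ K, hiK, Matrix.one_mul, hKHi']
    have h3 : (K⁻¹ * D * (K⁻¹)ᴴ - 1) * (D - Kᴴ * K) =
        K⁻¹ * D * (K⁻¹)ᴴ * D - K⁻¹ * D * K - D + Kᴴ * K := by
      rw [Matrix.sub_mul, Matrix.mul_sub, Matrix.one_mul]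
      have : K⁻¹ * D * (K⁻¹)ᴴ * (Kᴴ * K) = K⁻¹ * D * K := by
        rw [← Matrix.mul_assoc, Matrix.mul_assoc (K⁻¹ * D), hKHi, Matrix.mul_one]
      rw [this]
      abel
    rw [h1, hWW', h2, h3, Matrix.trace_add, Matrix.trace_sub, Matrix.trace_sub]
    have h4 : (K⁻¹ * D * K).trace = D.trace := by
      rw [Matrix.trace_mul_comm, ← Matrix.mul_assoc, hKi, Matrix.one_mul]
    have h5 : (Kᴴ * K).trace = (K * Kᴴ).trace := Matrix.trace_mul_comm _ _
    have h6 : (K⁻¹ * D * (K⁻¹)ᴴ * D).trace = (N * Nᴴ).trace := by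
      have h7 : Nᴴ = C * (K⁻¹)ᴴ * Cᴴ := by
        rw [hN, Matrix.conjTranspose_mul, Matrix.conjTranspose_mul,
          Matrix.conjTranspose_conjTranspose, Matrix.mul_assoc]
      rw [h7, hN]
      have : C * K⁻¹ * Cᴴ * (C * (K⁻¹)ᴴ * Cᴴ) = C * (K⁻¹ * (Cᴴ * C) * (K⁻¹)ᴴ * Cᴴ) := by
        simp only [Matrix.mul_assoc]
      rw [this, Matrix.trace_mul_comm C, ← hC]
      have : K⁻¹ * D * (K⁻¹)ᴴ * Cᴴ * C = K⁻¹ * D * (K⁻¹)ᴴ * (Cᴴ * C) := by
        simp only [Matrix.mul_assoc]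
      rw [this, ← hC]
    rw [h4, h5, h6]
    ring
  -- real numbers
  have r1 := hs_trace Y
  have r2 := hs_trace N
  have r3 := hs_trace K
  rw [← r2, ← r3] at htr
  rw [htr] at r1
  have hDtr : D.trace = (((Fintype.card β : ℝ) - η * ∑ b, (R b b).im : ℝ) : ℂ) := by
    rw [Matrix.trace]
    push_cast
    rw [Finset.mul_sum]
    have : (Fintype.card β : ℂ) = ∑ _b : β, (1 : ℂ) := by simp
    rw [this, ← Finset.sum_sub_distrib]
    apply Finset.sum_congr rfl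
    intro b _
    rw [Matrix.diag_apply, hDd, hKH, hKd]
    simp only [Matrix.smul_apply, Matrix.add_apply, Matrix.sub_apply, smul_eq_mul,
      Matrix.one_apply_eq, hRH]
    have h4 : ((R b b).im : ℂ) = (R b b - conj (R b b)) / (2 * Complex.I) := by
      rw [Complex.sub_conj]
      push_cast
      field_simp
    have hI : (2 * Complex.I : ℂ) ≠ 0 := by simp
    have h5 : (R b b - conj (R b b)) / (2 * Complex.I) =
        -(Complex.I / 2) * (R b b - conj (R b b)) := by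
      rw [div_eq_iff hI]
      ring_nf
      rw [Complex.I_sq]
      ring
    rw [h4, h5]
    ring
  have hKsum : (∑ b, ∑ b', ‖K b b'‖ ^ 2) =
      (Fintype.card β : ℝ) - 2 * η * (∑ b, (R b b).im) + η ^ 2 * ∑ b, ∑ b', ‖R b b'‖ ^ 2 := by
    have h1 : ∀ b b', ‖K b b'‖ ^ 2 = (if b = b' then 1 - 2 * η * (R b b).im else 0) +
        η ^ 2 * ‖R b b'‖ ^ 2 := by
      intro b b'
      rw [hKd, Matrix.add_apply, Matrix.smul_apply, smul_eq_mul, ← Complex.normSq_eq_norm_sq,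
        ← Complex.normSq_eq_norm_sq, Complex.normSq_apply, Complex.normSq_apply]
      by_cases h : b = b'
      · subst h
        simp
        ring
      · simp [h]
        ring
    simp only [h1, Finset.sum_add_distrib, Finset.sum_ite_eq, Finset.mem_univ, if_true,
      Finset.sum_sub_distrib]
    rw [Finset.mul_sum, Finset.mul_sum]
    simp only [Finset.mul_sum]
    simp
  rw [hDtr] at r1
  have r4 : (∑ x, ∑ y, ‖Y x y‖ ^ 2) = (∑ i, ∑ j, ‖N i j‖ ^ 2) -
      2 * ((Fintype.card β : ℝ) - η * ∑ b, (R b b).im) + ∑ b, ∑ b', ‖K b b'‖ ^ 2 := by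
    exact_mod_cast r1
  have r5 : (∑ x, ∑ y, ‖Y x y‖ ^ 2) ≤ η ^ 2 * ∑ b, ∑ b', ‖R b b'‖ ^ 2 := by
    rw [r4, hKsum]
    linarith
  have r6 : ∀ x y, ‖Y x y‖ ^ 2 = η ^ 2 * ‖((η : ℂ) • (Fᵀ * K⁻¹ * F)) x y‖ ^ 2 := by
    intro x y
    have : Y = (η : ℂ) • ((η : ℂ) • (Fᵀ * K⁻¹ * F)) := by
      rw [hY, hWd, Matrix.transpose_smul, Matrix.smul_mul, Matrix.smul_mul, Matrix.mul_smul]
    rw [this, Matrix.smul_apply, smul_eq_mul, norm_mul, mul_pow, Complex.norm_real,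
      Real.norm_eq_abs, sq_abs]
  simp only [r6] at r5
  simp only [← Finset.mul_sum] at r5
  exact le_of_mul_le_mul_left r5 (by positivity)

end Pool.Agent.HSL14
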